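import Mathlib

set_option autoImplicit false

namespace Pool.Agent.H.MP_821f63_lc

def al (n : ℕ) (p : ℕ → Bool) : Bool :=
  p 0 && (!Nat.ble 1 n || p 1 && (!Nat.ble 2 n || p 2 && (!Nat.ble 3 n || p 3)))

theorem al_el {n : ℕ} {p : ℕ → Bool} (h : al n p = true) (x : ℕ) (h1 : x ≤ 3) (h2 : x ≤ n) :
    p x = true := by
  simp only [al, Bool.and_eq_true, Bool.or_eq_true, Bool.not_eq_true', ← Bool.not_eq_true,
    Nat.ble_eq] at h
  interval_cases x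
  · exact h.1
  · exact (h.2.resolve_left (by omega)).1
  · exact ((h.2.resolve_left (by omega)).2.resolve_left (by omega)).1
  · exact ((h.2.resolve_left (by omega)).2.resolve_left (by omega)).2.resolve_left (by omega)

def mn (a b : ℕ) : ℕ := cond (Nat.ble a b) a b

def pt (v x y z : ℕ) : Bool :=
  Nat.ble v 0 || Nat.ble 7 (v + mn ((x + y + z) / 2) (mn (x + y) (mn (x + z) (y + z))) +
    (13 - (v + x + y + z)) / 2)

def ln (a b c d : ℕ) : Bool :=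
  Nat.ble (a + b + c + d) 6 && pt a b c d && pt b a c d && pt c a b d && pt d a b c

def ck : Bool := al (13) fun m0 =>
  al (13 - m0) fun m1 =>
  al (13 - m0 - m1) fun m2 =>
  al (13 - m0 - m1 - m2) fun m3 =>
  !ln m0 m1 m2 m3 || al (13 - m0 - m1 - m2 - m3) fun m4 =>
  al (13 - m0 - m1 - m2 - m3 - m4) fun m5 =>
  al (13 - m0 - m1 - m2 - m3 - m4 - m5) fun m6 =>
  !ln m0 m4 m5 m6 || al (13 - m0 - m1 - m2 - m3 - m4 - m5 - m6) fun m7 =>
  al (13 - m0 - m1 - m2 - m3 - m4 - m5 - m6 - m7) fun m8 =>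
  !ln m1 m4 m7 m8 || al (13 - m0 - m1 - m2 - m3 - m4 - m5 - m6 - m7 - m8) fun m9 =>
  !ln m3 m6 m8 m9 || al (13 - m0 - m1 - m2 - m3 - m4 - m5 - m6 - m7 - m8 - m9) fun m10 =>
  !ln m2 m4 m9 m10 || !ln m3 m5 m7 m10 || al (13 - m0 - m1 - m2 - m3 - m4 - m5 - m6 - m7 - m8 - m9 - m10) fun m11 =>
  !ln m0 m7 m9 m11 || !ln m1 m6 m10 m11 || !ln m2 m5 m8 m11 || al (13 - m0 - m1 - m2 - m3 - m4 - m5 - m6 - m7 - m8 - m9 - m10 - m11) fun m12 =>
  !ln m0 m8 m10 m12 || !ln m1 m5 m9 m12 || !ln m2 m6 m7 m12 || !ln m3 m4 m11 m12 || !(Nat.ble (7 + (m0 + m1 + m2 + m3)) (m0 + m1 + m2 + m3 + m4 + m5 + m6 + m7 + m8 + m9 + m10 + m11 + m12) &&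
    Nat.ble (7 + (m0 + m4 + m5 + m6)) (m0 + m1 + m2 + m3 + m4 + m5 + m6 + m7 + m8 + m9 + m10 + m11 + m12) &&
    Nat.ble (7 + (m1 + m4 + m7 + m8)) (m0 + m1 + m2 + m3 + m4 + m5 + m6 + m7 + m8 + m9 + m10 + m11 + m12) &&
    Nat.ble (7 + (m3 + m6 + m8 + m9)) (m0 + m1 + m2 + m3 + m4 + m5 + m6 + m7 + m8 + m9 + m10 + m11 + m12) &&
    Nat.ble (7 + (m2 + m4 + m9 + m10)) (m0 + m1 + m2 + m3 + m4 + m5 + m6 + m7 + m8 + m9 + m10 + m11 + m12) &&
    Nat.ble (7 + (m3 + m5 + m7 + m10)) (m0 + m1 + m2 + m3 + m4 + m5 + m6 + m7 + m8 + m9 + m10 + m11 + m12) &&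
    Nat.ble (7 + (m0 + m7 + m9 + m11)) (m0 + m1 + m2 + m3 + m4 + m5 + m6 + m7 + m8 + m9 + m10 + m11 + m12) &&
    Nat.ble (7 + (m1 + m6 + m10 + m11)) (m0 + m1 + m2 + m3 + m4 + m5 + m6 + m7 + m8 + m9 + m10 + m11 + m12) &&
    Nat.ble (7 + (m2 + m5 + m8 + m11)) (m0 + m1 + m2 + m3 + m4 + m5 + m6 + m7 + m8 + m9 + m10 + m11 + m12) &&
    Nat.ble (7 + (m0 + m8 + m10 + m12)) (m0 + m1 + m2 + m3 + m4 + m5 + m6 + m7 + m8 + m9 + m10 + m11 + m12) &&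
    Nat.ble (7 + (m1 + m5 + m9 + m12)) (m0 + m1 + m2 + m3 + m4 + m5 + m6 + m7 + m8 + m9 + m10 + m11 + m12) &&
    Nat.ble (7 + (m2 + m6 + m7 + m12)) (m0 + m1 + m2 + m3 + m4 + m5 + m6 + m7 + m8 + m9 + m10 + m11 + m12) &&
    Nat.ble (7 + (m3 + m4 + m11 + m12)) (m0 + m1 + m2 + m3 + m4 + m5 + m6 + m7 + m8 + m9 + m10 + m11 + m12))

theorem ck_ok : ck = true := by decide +kernel

def cl : Fin 3 → Fin 3 → Fin 3 → Fin 14 := ![![![13, 4, 4], ![0, 5, 6], ![0, 6, 5]], ![![1, 7, 8], ![2, 9, 10], ![3, 11, 12]], ![![1, 8, 7], ![3, 12, 11], ![2, 10, 9]]]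

def L : Fin 13 → Fin 4 → Fin 14 := ![![0, 1, 2, 3], ![0, 4, 5, 6], ![1, 4, 7, 8], ![3, 6, 8, 9], ![2, 4, 9, 10], ![3, 5, 7, 10], ![0, 7, 9, 11], ![1, 6, 10, 11], ![2, 5, 8, 11], ![0, 8, 10, 12], ![1, 5, 9, 12], ![2, 6, 7, 12], ![3, 4, 11, 12]]

def fn : Fin 13 → Fin 3 → ZMod 3 := ![![0, 0, 1], ![1, 0, 0], ![0, 1, 0], ![1, 1, 1], ![1, 2, 0], ![1, 1, 2], ![1, 0, 2], ![0, 1, 1], ![1, 2, 1], ![1, 0, 1], ![0, 1, 2], ![1, 2, 2], ![1, 1, 0]]

theorem fin (m : Fin 14 → ℕ) (T : ℕ) (hT : T = m 0 + m 1 + m 2 + m 3 + m 4 + m 5 + m 6 + m 7 + m 8 + m 9 +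
    m 10 + m 11 + m 12) (h0 : T ≤ 13)
    (h1 : ∀ l, 7 + (m (L l 0) + m (L l 1) + m (L l 2) + m (L l 3)) ≤ T)
    (h2 : ∀ l, ln (m (L l 0)) (m (L l 1)) (m (L l 2)) (m (L l 3)) = true) : False := by
  have h := ck_ok
  unfold ck at h
  have a0 : 7 + (m 0 + m 1 + m 2 + m 3) ≤ T := h1 0
  have c0 : ln (m 0) (m 1) (m 2) (m 3) = true := h2 0
  have a1 : 7 + (m 0 + m 4 + m 5 + m 6) ≤ T := h1 1
  have c1 : ln (m 0) (m 4) (m 5) (m 6) = true := h2 1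
  have a2 : 7 + (m 1 + m 4 + m 7 + m 8) ≤ T := h1 2
  have c2 : ln (m 1) (m 4) (m 7) (m 8) = true := h2 2
  have a3 : 7 + (m 3 + m 6 + m 8 + m 9) ≤ T := h1 3
  have c3 : ln (m 3) (m 6) (m 8) (m 9) = true := h2 3
  have a4 : 7 + (m 2 + m 4 + m 9 + m 10) ≤ T := h1 4
  have c4 : ln (m 2) (m 4) (m 9) (m 10) = true := h2 4
  have a5 : 7 + (m 3 + m 5 + m 7 + m 10) ≤ T := h1 5
  have c5 : ln (m 3) (m 5) (m 7) (m 10) = true := h2 5
  have a6 : 7 + (m 0 + m 7 + m 9 + m 11) ≤ T := h1 6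
  have c6 : ln (m 0) (m 7) (m 9) (m 11) = true := h2 6
  have a7 : 7 + (m 1 + m 6 + m 10 + m 11) ≤ T := h1 7
  have c7 : ln (m 1) (m 6) (m 10) (m 11) = true := h2 7
  have a8 : 7 + (m 2 + m 5 + m 8 + m 11) ≤ T := h1 8
  have c8 : ln (m 2) (m 5) (m 8) (m 11) = true := h2 8
  have a9 : 7 + (m 0 + m 8 + m 10 + m 12) ≤ T := h1 9
  have c9 : ln (m 0) (m 8) (m 10) (m 12) = true := h2 9
  have a10 : 7 + (m 1 + m 5 + m 9 + m 12) ≤ T := h1 10
  have c10 : ln (m 1) (m 5) (m 9) (m 12) = true := h2 10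
  have a11 : 7 + (m 2 + m 6 + m 7 + m 12) ≤ T := h1 11
  have c11 : ln (m 2) (m 6) (m 7) (m 12) = true := h2 11
  have a12 : 7 + (m 3 + m 4 + m 11 + m 12) ≤ T := h1 12
  have c12 : ln (m 3) (m 4) (m 11) (m 12) = true := h2 12
  clear h1 h2
  replace h := al_el h (m 0) (by clear * - hT h0 a0 a1 a6 a9; omega) (by clear * - hT h0; omega)
  replace h := al_el h (m 1) (by clear * - hT h0 a0 a2 a7 a10; omega) (by clear * - hT h0; omega)
  replace h := al_el h (m 2) (by clear * - hT h0 a0 a4 a8 a11; omega) (by clear * - hT h0; omega)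
  replace h := al_el h (m 3) (by clear * - hT h0 a0 a3 a5 a12; omega) (by clear * - hT h0; omega)
  simp only [c0, Bool.not_true, Bool.false_or] at h
  replace h := al_el h (m 4) (by clear * - hT h0 a1 a2 a4 a12; omega) (by clear * - hT h0; omega)
  replace h := al_el h (m 5) (by clear * - hT h0 a1 a5 a8 a10; omega) (by clear * - hT h0; omega)
  replace h := al_el h (m 6) (by clear * - hT h0 a1 a3 a7 a11; omega) (by clear * - hT h0; omega)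
  simp only [c1, Bool.not_true, Bool.false_or] at h
  replace h := al_el h (m 7) (by clear * - hT h0 a2 a5 a6 a11; omega) (by clear * - hT h0; omega)
  replace h := al_el h (m 8) (by clear * - hT h0 a2 a3 a8 a9; omega) (by clear * - hT h0; omega)
  simp only [c2, Bool.not_true, Bool.false_or] at h
  replace h := al_el h (m 9) (by clear * - hT h0 a3 a4 a6 a10; omega) (by clear * - hT h0; omega)
  simp only [c3, Bool.not_true, Bool.false_or] at h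
  replace h := al_el h (m 10) (by clear * - hT h0 a4 a5 a7 a9; omega) (by clear * - hT h0; omega)
  simp only [c4, c5, Bool.not_true, Bool.false_or] at h
  replace h := al_el h (m 11) (by clear * - hT h0 a6 a7 a8 a12; omega) (by clear * - hT h0; omega)
  simp only [c6, c7, c8, Bool.not_true, Bool.false_or] at h
  replace h := al_el h (m 12) (by clear * - hT h0 a9 a10 a11 a12; omega) (by clear * - hT h0; omega)
  simp only [c9, c10, c11, c12, Bool.not_true, Bool.false_or] at h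
  simp only [← hT, Nat.ble_eq_true_of_le a0, Nat.ble_eq_true_of_le a1, Nat.ble_eq_true_of_le a2, Nat.ble_eq_true_of_le a3, Nat.ble_eq_true_of_le a4, Nat.ble_eq_true_of_le a5, Nat.ble_eq_true_of_le a6, Nat.ble_eq_true_of_le a7, Nat.ble_eq_true_of_le a8, Nat.ble_eq_true_of_le a9, Nat.ble_eq_true_of_le a10, Nat.ble_eq_true_of_le a11, Nat.ble_eq_true_of_le a12] at h
  exact absurd h (by decide)

end Pool.Agent.H.MP_821f63_lc
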