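import Mathlib
import Pool.Agent.H.MP_821f63_lc.A

set_option autoImplicit false

namespace Pool.Agent.H.MP_821f63_lc

open Finset Submodule Function

theorem van {F V ι : Type} [Field F] [AddCommGroup V] [Module F V] {g : ι → V} {R : Set ι} {v : V}
    (h : v ∈ span F (g '' R)) (φ : V →ₗ[F] F) (h0 : ∀ r ∈ R, φ (g r) = 0) : φ v = 0 :=
  (span_le (p := LinearMap.ker φ)).2 (by rintro _ ⟨r, hr, rfl⟩; exact h0 r hr) h

theorem two {F V ι : Type} [Field F] [DecidableEq F] [AddCommGroup V] [Module F V] {g : ι → V}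
    {R : Finset ι} {v : V} (h : v ∈ span F (g '' R)) (φ ψ : V →ₗ[F] F) (h1 : φ v = 0) (h2 : ψ v ≠ 0)
    (h3 : #{r ∈ R | φ (g r) ≠ 0} ≤ 1) : ∃ r ∈ R, φ (g r) = 0 ∧ ψ (g r) ≠ 0 := by
  by_contra! hc
  by_cases h4 : ∃ r ∈ R, φ (g r) ≠ 0
  · obtain ⟨r0, hr0, h4⟩ := h4
    have := van h (φ (g r0) • ψ - ψ (g r0) • φ) fun r hr => by
      by_cases h5 : φ (g r) = 0
      · simp [h5, hc r hr h5]
      · obtain rfl := card_le_one.1 h3 r (by simpa [h5] using hr) r0 (by simp [h4, hr0])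
        simp [mul_comm]
    simp [h1, h2, h4] at this
  · push Not at h4
    exact h2 (van h ψ fun r hr => hc r hr (h4 r hr))

theorem cnt {n t : ℕ} (κ : Fin n → Fin 14) (R : Fin t → Finset (Fin n)) (hR : Pairwise (Disjoint on R))
    (I : Finset (Fin t)) (C : Finset (Fin 14)) (β : ℕ) (h : ∀ i ∈ I, β ≤ #{r ∈ R i | κ r ∈ C}) :
    β * #I ≤ ∑ k ∈ C, #{r | κ r = k} := by
  rw [sum_card_fiberwise_eq_card_filter]
  calc β * #I ≤ ∑ i ∈ I, #{r ∈ R i | κ r ∈ C} := by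
        rw [mul_comm]; exact card_nsmul_le_sum I _ β h
    _ = #(I.biUnion fun i => {r ∈ R i | κ r ∈ C}) := (card_biUnion fun i _ j _ hij =>
        disjoint_filter_filter (hR hij)).symm
    _ ≤ _ := card_le_card fun r hr => by
        simp only [mem_biUnion, mem_filter] at hr
        obtain ⟨i, -, -, h⟩ := hr
        simpa using h

abbrev V := Fin 3 → ZMod 3

def cls (y : V) : Fin 14 := cl (y 0) (y 1) (y 2)

def ph (l : Fin 13) : V →ₗ[ZMod 3] ZMod 3 :=
  fn l 0 • LinearMap.proj 0 + fn l 1 • LinearMap.proj 1 + fn l 2 • LinearMap.proj 2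

theorem ph_ap (l y) : ph l y = fn l 0 * y 0 + fn l 1 * y 1 + fn l 2 * y 2 := rfl

def Ls (l : Fin 13) : Finset (Fin 14) := {L l 0, L l 1, L l 2, L l 3}

theorem f1' : ∀ l a b c, fn l 0 * a + fn l 1 * b + fn l 2 * c = 0 ↔ cl a b c = 13 ∨ cl a b c ∈ Ls l := by
  decide +kernel

theorem f1 (l y) : ph l y = 0 ↔ cls y = 13 ∨ cls y ∈ Ls l := f1' l _ _ _

theorem f2' : ∀ v x : Fin 14, v = 13 ∨ x = 13 ∨ v = x ∨ ∃ l : Fin 13, v ∉ Ls l ∧ x ∈ Ls l := by
  decide +kernel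

theorem f2 (v x : Fin 14) (h1 : v ≠ 13) (h2 : x ≠ 13) (h3 : v ≠ x) : ∃ l, v ∉ Ls l ∧ x ∈ Ls l := by
  simpa [h1, h2, h3] using f2' v x

theorem f3 : ∀ l, fn l ≠ 0 ∧ 13 ∉ Ls l ∧ ∀ a b, L l a = L l b → a = b := by decide +kernel

theorem ptl {n : ℕ} (hn : n ≤ 13) (g : Fin n → V)
    (hg : ∀ j, ∃ R : Fin 7 → Finset (Fin n), Pairwise (Disjoint on R) ∧
      ∀ i, g j ∈ span (ZMod 3) (g '' R i)) (l : Fin 13) (v x y z : Fin 14) (hl : Ls l = {v, x, y, z})
    (d : v ≠ x ∧ v ≠ y ∧ v ≠ z ∧ x ≠ y ∧ x ≠ z ∧ y ≠ z) :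
    pt #{r | cls (g r) = v} #{r | cls (g r) = x} #{r | cls (g r) = y} #{r | cls (g r) = z} = true := by
  classical
  by_cases h0 : #{r | cls (g r) = v} = 0
  · simp [pt, h0]
  obtain ⟨j, hj⟩ := card_pos.1 (Nat.pos_of_ne_zero h0)
  replace hj : cls (g j) = v := by simpa using hj
  obtain ⟨R, hR, hs⟩ := hg j
  have h13 := (f3 l).2.1
  rw [hl] at h13
  simp only [mem_insert, mem_singleton, not_or] at h13
  obtain ⟨d1, d2, d3, d4, d5, d6⟩ := d
  set I0 : Finset (Fin 7) := {i | 1 ≤ #{r ∈ R i | cls (g r) ∈ ({v} : Finset _)}} with e0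
  set I2 : Finset (Fin 7) := {i | 2 ≤ #{r ∈ R i | cls (g r) ∈ (insert 13 (Ls l))ᶜ}} with e2
  have c0 := cnt (fun r => cls (g r)) R hR I0 {v} 1 fun i hi => by simpa [e0] using hi
  have c2 := cnt (fun r => cls (g r)) R hR I2 (insert 13 (Ls l))ᶜ 2 fun i hi => by
    simpa only [e2, mem_filter, mem_univ, true_and] using hi
  have k : ∀ i ∈ (I0 ∪ I2)ᶜ, ∀ w, w ≠ 13 → v ≠ w →
      ∃ r ∈ R i, cls (g r) ∈ ({x, y, z} : Finset _) ∧ cls (g r) ≠ w := by
    intro i hi w hw hvw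
    simp only [e0, e2, mem_compl, mem_union, mem_filter, mem_univ, true_and, not_or, not_le] at hi
    obtain ⟨l', h1, h2⟩ := f2 v w (Ne.symm h13.1) hw hvw
    obtain ⟨r, hr, h3, h4⟩ := two (hs i) (ph l) (ph l') (by rw [f1, hj, hl]; simp)
      (by rw [Ne, f1, hj]; simp [h1, Ne.symm h13.1]) (by
        refine Nat.le_of_lt_succ (lt_of_eq_of_lt ?_ hi.2)
        congr 1; ext r; simp [f1])
    rw [f1] at h3
    rw [Ne, f1, not_or] at h4
    have h5 : cls (g r) ≠ v := fun e => by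
      have : 0 < #{r ∈ R i | cls (g r) ∈ ({v} : Finset _)} := card_pos.2 ⟨r, by simp [hr, e]⟩
      omega
    refine ⟨r, hr, ?_, fun e => h4.2 (e ▸ h2)⟩
    simpa [hl, h5, h4.1] using h3
  have c1 := cnt (fun r => cls (g r)) R hR (I0 ∪ I2)ᶜ {x, y, z} 2 fun i hi => by
    obtain ⟨r, hr, h1, -⟩ := k i hi x (Ne.symm h13.2.1) d1
    obtain ⟨r', hr', h2, h3⟩ := k i hi (cls (g r)) (by
      intro e; rw [e] at h1; simp [h13] at h1) (by
      intro e; rw [← e] at h1; simp [d1, d2, d3] at h1)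
    exact one_lt_card.2 ⟨r, by simp only [mem_filter]; exact ⟨hr, h1⟩, r',
      by simp only [mem_filter]; exact ⟨hr', h2⟩, fun e => h3 (e ▸ rfl)⟩
  have cx := cnt (fun r => cls (g r)) R hR (I0 ∪ I2)ᶜ {y, z} 1 fun i hi => by
    obtain ⟨r, hr, h1, h2⟩ := k i hi x (Ne.symm h13.2.1) d1
    exact card_pos.2 ⟨r, by simpa [hr, h2] using h1⟩
  have cy := cnt (fun r => cls (g r)) R hR (I0 ∪ I2)ᶜ {x, z} 1 fun i hi => by
    obtain ⟨r, hr, h1, h2⟩ := k i hi y (Ne.symm h13.2.2.1) d2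
    exact card_pos.2 ⟨r, by simpa [hr, h2] using h1⟩
  have cz := cnt (fun r => cls (g r)) R hR (I0 ∪ I2)ᶜ {x, y} 1 fun i hi => by
    obtain ⟨r, hr, h1, h2⟩ := k i hi z (Ne.symm h13.2.2.2) d3
    exact card_pos.2 ⟨r, by simpa [hr, h2] using h1⟩
  have t1 := card_add_card_compl (I0 ∪ I2)
  have t2 := card_union_le I0 I2
  have t3 := sum_add_sum_compl (insert 13 (Ls l)) fun k => #{r | cls (g r) = k}
  have t : ∑ k, #{r | cls (g r) = k} = n := by
    rw [sum_card_fiberwise_eq_card_filter]; simp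
  rw [t, sum_insert (f3 l).2.1, hl] at t3
  rw [hl] at c2
  simp only [Fintype.card_fin] at t1
  rw [sum_insert (by simp [d1, d2, d3]), sum_insert (by simp [d4, d5]), sum_pair d6] at t3
  rw [sum_insert (by simp [d4, d5]), sum_pair d6] at c1
  rw [sum_pair d6] at cx
  rw [sum_pair d5] at cy
  rw [sum_pair d4] at cz
  rw [sum_singleton] at c0
  simp only [pt, mn, Bool.or_eq_true, Nat.ble_eq, Bool.cond_eq_ite]
  right
  split_ifs <;> omega

theorem lower {n : ℕ} (hn : n ≤ 13) (g : Fin n → V) (hsp : ∀ l, ∃ j, ph l (g j) ≠ 0)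
    (hg : ∀ j, ∃ R : Fin 7 → Finset (Fin n), Pairwise (Disjoint on R) ∧
      ∀ i, g j ∈ span (ZMod 3) (g '' R i)) : False := by
  classical
  have t : ∑ k, #{r | cls (g r) = k} = n := by
    rw [sum_card_fiberwise_eq_card_filter]; simp
  have dd : ∀ l, L l 0 ≠ L l 1 ∧ L l 0 ≠ L l 2 ∧ L l 0 ≠ L l 3 ∧ L l 1 ≠ L l 2 ∧ L l 1 ≠ L l 3 ∧
    L l 2 ≠ L l 3 := by decide +kernel
  have de : ∀ l, Ls l = {L l 1, L l 0, L l 2, L l 3} ∧ Ls l = {L l 2, L l 0, L l 1, L l 3} ∧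
    Ls l = {L l 3, L l 0, L l 1, L l 2} := by decide +kernel
  have h1 : ∀ l, 7 + (#{r | cls (g r) = L l 0} + #{r | cls (g r) = L l 1} + #{r | cls (g r) = L l 2} +
      #{r | cls (g r) = L l 3}) ≤ n - #{r | cls (g r) = 13} := by
    intro l
    obtain ⟨j, hj⟩ := hsp l
    obtain ⟨R, hR, hs⟩ := hg j
    have c := cnt (fun r => cls (g r)) R hR univ (insert 13 (Ls l))ᶜ 1 fun i _ => by
      by_contra hc
      refine hj (van (hs i) _ fun r hr => ?_)
      by_contra h2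
      exact hc (card_pos.2 ⟨r, by simpa [f1, mem_coe.1 hr] using h2⟩)
    have t3 := sum_add_sum_compl (insert 13 (Ls l)) fun k => #{r | cls (g r) = k}
    obtain ⟨d1, d2, d3, d4, d5, d6⟩ := dd l
    rw [t, sum_insert (f3 l).2.1] at t3
    nth_rewrite 1 [Ls] at t3
    rw [sum_insert (by simp [d1, d2, d3]), sum_insert (by simp [d4, d5]), sum_pair d6] at t3
    simp only [card_univ, Fintype.card_fin] at c
    omega
  refine fin (fun k => #{r | cls (g r) = k}) (n - #{r | cls (g r) = 13}) ?_ (by omega) h1 fun l => ?_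
  · simp only [Fin.sum_univ_succ, Fin.sum_univ_zero] at t
    simp only [Fin.reduceSucc, Fin.succ_zero_eq_one'] at t
    omega
  · obtain ⟨d1, d2, d3, d4, d5, d6⟩ := dd l
    have := h1 l
    simp only [ln, Bool.and_eq_true, Nat.ble_eq]
    exact ⟨⟨⟨⟨by omega, ptl hn g hg l _ _ _ _ rfl (dd l)⟩,
      ptl hn g hg l _ _ _ _ (de l).1 ⟨d1.symm, d4, d5, d2, d3, d6⟩⟩,
      ptl hn g hg l _ _ _ _ (de l).2.1 ⟨d2.symm, d4.symm, d6, d1, d3, d5⟩⟩,
      ptl hn g hg l _ _ _ _ (de l).2.2 ⟨d3.symm, d5.symm, d6.symm, d1, d2, d4⟩⟩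

def srv {n : ℕ} (o : Fin n → List (List (Fin n))) : List (Fin n) → List (Fin n) → Bool
  | [], _ => true
  | x :: l, u => (o x).any fun s => s.all (fun a => !u.contains a) && srv o l (s ++ u)

theorem srv_ok {n : ℕ} (o : Fin n → List (List (Fin n))) (t : ℕ) : ∀ (c : Fin t → Fin n) u,
    srv o (List.ofFn c) u = true → ∃ R : Fin t → Finset (Fin n), Pairwise (Disjoint on R) ∧
      (∀ i, Disjoint (R i) u.toFinset) ∧ ∀ i, ∃ s ∈ o (c i), R i = s.toFinset := by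
  induction t with
  | zero => intro c u _; exact ⟨fun i => i.elim0, fun i => i.elim0, fun i => i.elim0, fun i => i.elim0⟩
  | succ t ih =>
    intro c u h
    simp only [List.ofFn_succ, srv, List.any_eq_true, Bool.and_eq_true, List.all_eq_true] at h
    obtain ⟨s, hs, h1, h2⟩ := h
    obtain ⟨R, k1, k2, k3⟩ := ih _ _ h2
    simp only [List.toFinset_append, disjoint_union_right] at k2
    refine ⟨Fin.cons s.toFinset R, ?_, ?_, ?_⟩
    · intro i j hij
      rcases i.eq_zero_or_eq_succ with rfl | ⟨i, rfl⟩ <;> rcases j.eq_zero_or_eq_succ with rfl | ⟨j, rfl⟩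
      · exact (hij rfl).elim
      · exact (k2 j).1.symm
      · exact (k2 i).1
      · exact k1 fun e => hij (congrArg _ e)
    · refine Fin.cases ?_ fun i => (k2 i).2
      exact disjoint_left.2 fun a ha => by simpa using h1 a (by simpa using ha)
    · exact Fin.cases ⟨s, hs, rfl⟩ k3

theorem upper {n t : ℕ} (g : Fin n → V) (o : Fin n → List (List (Fin n)))
    (ho : ∀ x, ∀ s ∈ o x, g x = (s.map g).sum ∨ g x = -(s.map g).sum)
    (h : ∀ c : Fin t → Fin n, Monotone c → srv o (List.ofFn c) [] = true) (c : Fin t → Fin n) :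
    ∃ R : Fin t → Finset (Fin n), Pairwise (Disjoint on R) ∧
      ∀ i, g (c i) ∈ span (ZMod 3) (g '' R i) := by
  obtain ⟨R, k1, -, k3⟩ := srv_ok o t _ _ (h _ (Tuple.monotone_sort c))
  refine ⟨fun i => R ((Tuple.sort c).symm i), fun i j hij => k1 (by simpa using hij), fun i => ?_⟩
  obtain ⟨s, hs, e⟩ := k3 ((Tuple.sort c).symm i)
  simp only [comp_apply, Equiv.apply_symm_apply] at hs
  have : (s.map g).sum ∈ span (ZMod 3) (g '' R ((Tuple.sort c).symm i)) := by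
    refine list_sum_mem fun y hy => subset_span ?_
    obtain ⟨a, ha, rfl⟩ := List.mem_map.1 hy
    exact ⟨a, by simpa [e] using ha, rfl⟩
  rcases ho _ s hs with e | e <;> rw [e]
  · exact this
  · exact neg_mem this

end Pool.Agent.H.MP_821f63_lc
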